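import Pool.Agent.Helper91.HZ.K1a

set_option autoImplicit false

/-!
# HZ, module K1: from the pruned resolved complex to a complex for the subgroup (9.3)
-/

open MulAction Pointwise

namespace Pool.Agent.Helper93.HZ

section

variable {G : Type} [Group G] {D : Setup G} {K : Cx G} {P : Pts D K} (Q : Thr D K P)

/-- the location of a token -/
def k1tk {U V : Type} (τ : Tk U V) : Set U := match τ with
  | .e u w _ _ => {u, w}
  | .l u w _ => {u, w}

theorem k1tk_rel (τ τ' : Tk D.U K.V) (h : TRel Q τ τ') : k1tk τ = k1tk τ' := by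
  cases h with
  | swU u w x y => exact Set.pair_comm _ _
  | swV u w x y => rfl
  | swL u w v => exact Set.pair_comm _ _
  | t1 x y z u w h1 h2 h3 h4 h5 => rfl
  | t2 v y k h1 h2 h3 h4 => rfl
  | t3 v v' u w h1 h2 h3 h4 h5 h6 => rfl
  | t4 v v' u w h1 h2 h3 h4 h5 h6 => rfl

/-- the location of an element of `AV` -/
def k1loc (p : AV Q) : Set D.U :=
  Sum.elim (fun x => {u | P.N x u = u}) (Quot.lift k1tk (k1tk_rel Q)) p

theorem k1loc_tk (τ : Tk D.U K.V) : k1loc Q (tk Q τ) = k1tk τ := rfl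

theorem k1loc_inl (x : K.V) : k1loc Q (Sum.inl x) = {u | P.N x u = u} := rfl

theorem k1_fixu (hC : ST_TFC) {x : K.V} {u : D.U} (h : P.N x u = u) :
    {u | P.N x u = u} = ({u} : Set D.U) := by
  ext v
  rw [Set.mem_ofPred_eq, Set.mem_singleton_iff]
  constructor
  · intro hv
    obtain ⟨k, hk⟩ := (hC D.U D.T D.tree (P.N x) (P.N x) (P.fN x) (P.fN x)).1 u v (fun _ => h)
      (fun _ => hv)
    rw [Function.iterate_fixed h] at hk
    exact hk.elim id id
  · rintro rfl
    exact h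

theorem k1loc_pos (hC : ST_TFC) (x y : K.V) (u : D.U) :
    k1loc Q (pos Q x y u) = {u, P.N x u} := by
  unfold pos
  by_cases h : P.N x u = u
  · rw [if_pos h, k1loc_inl, k1_fixu hC h, h, Set.pair_eq_singleton]
  · rw [if_neg h, k1loc_tk]
    rfl

theorem k1loc_smul (g : G) (p : AV Q) : k1loc Q (g • p) = g • k1loc Q p := by
  rcases p with x | τ
  · show {u | P.N (g • x) u = u} = g • {u | P.N x u = u}
    ext u
    rw [Set.mem_smul_set_iff_inv_smul_mem, Set.mem_ofPred_eq, Set.mem_ofPred_eq]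
    have h := P.eN g x (g⁻¹ • u)
    rw [smul_inv_smul] at h
    rw [h, ← inv_smul_eq_iff.trans eq_comm]
    constructor
    · intro h
      exact h.symm
    · intro h
      exact h.symm
  · induction τ using Quot.ind with
    | mk τ =>
      show k1tk (g • τ) = g • k1tk τ
      cases τ with
      | e u w x y =>
        show ({g • u, g • w} : Set D.U) = g • {u, w}
        rw [Set.smul_set_insert, Set.smul_set_singleton]
      | l u w v =>
        show ({g • u, g • w} : Set D.U) = g • {u, w}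
        rw [Set.smul_set_insert, Set.smul_set_singleton]

theorem k1_inter {U : Type} (u v w : U) (h : v = w → v = u) :
    ({u, v} : Set U) ∩ {u, w} = {u} := by
  ext x
  simp only [Set.mem_inter_iff, Set.mem_insert_iff, Set.mem_singleton_iff]
  constructor
  · rintro ⟨h1 | h1, h2 | h2⟩
    · exact h1
    · exact h1
    · exact h2
    · rw [h1]
      exact h (h1.symm.trans h2)
  · intro h
    exact ⟨Or.inl h, Or.inl h⟩

theorem k1loc_adj (hC : ST_TFC) (p q : AV Q) (h : aadj Q p q) :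
    ∃ u, k1loc Q p ∩ k1loc Q q = {u} := by
  rcases h with ⟨x, y, u, -, -, hu, rfl, rfl⟩ | ⟨v, u, -, hu, ⟨rfl, rfl⟩ | ⟨rfl, rfl⟩⟩
  · refine ⟨u, ?_⟩
    rw [k1loc_pos Q hC, k1loc_pos Q hC]
    exact k1_inter _ _ _ hu
  · exact ⟨u, k1_inter _ _ _ fun h => absurd h hu⟩
  · exact ⟨u, k1_inter _ _ _ fun h => absurd h.symm hu⟩

theorem k1loc_tri (hC : ST_TFC) (p q r : AV Q) (h : atri Q p q r) :
    ∃ u, u ∈ k1loc Q p ∧ u ∈ k1loc Q q ∧ u ∈ k1loc Q r := by
  obtain ⟨x, y, z, c, -, -, rfl, rfl, rfl⟩ := h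
  refine ⟨c, ?_, ?_, ?_⟩
  · rw [k1loc_pos Q hC]
    exact Set.mem_insert _ _
  · rw [k1loc_pos Q hC]
    exact Set.mem_insert _ _
  · rw [k1loc_pos Q hC]
    exact Set.mem_insert _ _

theorem k1loc_one (hR : ST_RLOC) (hC : ST_TFC) (p q : AV Q) (h : aadj Q p q) :
    (∃ u, k1loc Q p = {u}) ∨ ∃ u w, D.T.Adj u w ∧ k1loc Q p = {u, w} := by
  rcases (hR G D K P Q).2.2.2 p q h with ⟨x, hx, rfl⟩ | ⟨x, y, u, w, -, hT, -, -, rfl⟩ |
    ⟨v, u, w, -, ⟨h1, -, h3⟩, rfl⟩
  · obtain ⟨u, hu⟩ := P.ell x hx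
    exact Or.inl ⟨u, k1_fixu hC hu⟩
  · exact Or.inr ⟨u, w, hT, rfl⟩
  · refine Or.inr ⟨u, w, ?_, rfl⟩
    rcases (P.fN v).1 u with h | h
    · exact absurd h h3
    · rw [h1] at h
      exact h

end

theorem st_K1 (hR : ST_RLOC) (hI : ST_INF) (hC : ST_TFC) : ST_K1 := by
  intro G _ X K2 K3 e i _ h2 _ h4 h5 hS _
  have hadj : ∀ p q, K3.adj p q → aadj X.Q (e (i p)) (e (i q)) := fun p q h =>
    (h4 _ _).1 (hS.adj _ _ h)
  let A : K1Loc X.D K3 :=
    { loc := fun p => k1loc X.Q (e (i p))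
      l1 := by
        intro p
        obtain ⟨q, hq⟩ := K3.nbr p
        exact k1loc_one X.Q hR hC _ _ (hadj p q hq)
      l2 := by
        intro g p
        show k1loc X.Q (e (i (g • p))) = g • k1loc X.Q (e (i p))
        rw [hS.equiv, h2, k1loc_smul]
      l3 := fun p q h => k1loc_adj X.Q hC _ _ (hadj p q h)
      l4 := fun p q r h => k1loc_tri X.Q hC _ _ _ ((h5 _ _ _).1 (hS.tri _ _ _ h)) }
  exact ⟨k1K A hI, k1m A, fun _ _ => rfl, k1_rr A hI, k1_nn A hI, k1_dd A hI,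
    fun u w h => k1_tracks A hI u w h⟩


end Pool.Agent.Helper93.HZ
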