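import Pool.Agent.Helper93.HZ.Blow

set_option autoImplicit false

/-!
# HZ, module K1, part a: the quotient complex for abstract location data
-/

open MulAction Pointwise

namespace Pool.Agent.Helper93.HZ

/-! ## counting orbits -/

theorem k1_oc {G α β : Type} [Group G] [MulAction G α] [MulAction G β] (S : Set α) (S' : Set β)
    (R : α → β → Prop) (h1 : ∀ a ∈ S, ∃ b ∈ S', R a b)
    (h2 : ∀ a ∈ S, ∀ a' ∈ S, ∀ b ∈ S', ∀ b' ∈ S', R a b → R a' b' → ∀ g : G, b' = g • b →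
      ∃ k : G, a' = k • a)
    (hf : FinOrb G S') : FinOrb G S ∧ oc G S ≤ oc G S' := by
  classical
  choose b hb hR using h1
  let f : Set α → Set β := fun o =>
    if h : ∃ a ∈ S, orbit G a = o then orbit G (b h.choose h.choose_spec.1) else ∅
  have hfS : ∀ o ∈ (fun x : α => orbit G x) '' S, f o ∈ (fun x : β => orbit G x) '' S' := by
    rintro o ⟨a, ha, rfl⟩
    have h : ∃ a' ∈ S, orbit G a' = orbit G a := ⟨a, ha, rfl⟩
    have e : f (orbit G a) = orbit G (b h.choose h.choose_spec.1) := dif_pos h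
    show f (orbit G a) ∈ _
    rw [e]
    exact ⟨_, hb _ h.choose_spec.1, rfl⟩
  have hinj : Set.InjOn f ((fun x : α => orbit G x) '' S) := by
    rintro o ⟨a, ha, rfl⟩ o' ⟨a', ha', rfl⟩ he
    have h : ∃ c ∈ S, orbit G c = orbit G a := ⟨a, ha, rfl⟩
    have h' : ∃ c ∈ S, orbit G c = orbit G a' := ⟨a', ha', rfl⟩
    have e : f (orbit G a) = orbit G (b h.choose h.choose_spec.1) := dif_pos h
    have e' : f (orbit G a') = orbit G (b h'.choose h'.choose_spec.1) := dif_pos h'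
    have he' : f (orbit G a) = f (orbit G a') := he
    rw [e, e'] at he'
    have hm : b h'.choose h'.choose_spec.1 ∈ orbit G (b h.choose h.choose_spec.1) := by
      rw [he']
      exact mem_orbit_self _
    obtain ⟨g, hg⟩ := hm
    obtain ⟨k, hk⟩ := h2 _ h.choose_spec.1 _ h'.choose_spec.1 _ (hb _ h.choose_spec.1) _
      (hb _ h'.choose_spec.1) (hR _ h.choose_spec.1) (hR _ h'.choose_spec.1) g hg.symm
    show orbit G a = orbit G a'
    rw [← h.choose_spec.2, ← h'.choose_spec.2, hk, orbit_smul]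
  refine ⟨?_, Set.ncard_le_ncard_of_injOn f hfS hinj hf⟩
  exact Set.Finite.of_injOn (f := f) hfS hinj hf

theorem k1_FinOrb_mono {G α : Type} [Group G] [MulAction G α] {S S' : Set α} (h : S ⊆ S')
    (hf : FinOrb G S') : FinOrb G S := hf.subset (Set.image_mono h)

/-! ## trees -/

/-- step avoiding `c` -/
def k1t {U : Type} (T : SimpleGraph U) (c : U) (a b : U) : Prop := T.Adj a b ∧ a ≠ c ∧ b ≠ c

theorem k1t_symm {U : Type} (T : SimpleGraph U) (c : U) {a b : U}
    (h : Relation.ReflTransGen (k1t T c) a b) : Relation.ReflTransGen (k1t T c) b a := by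
  induction h with
  | refl => exact Relation.ReflTransGen.refl
  | tail _ h ih => exact Relation.ReflTransGen.head ⟨h.1.symm, h.2.2, h.2.1⟩ ih

theorem k1_bridge {U : Type} (T : SimpleGraph U) (hT : T.IsAcyclic) {c a : U} (h : T.Adj c a) :
    ¬ Relation.ReflTransGen (fun x y => T.Adj x y ∧ s(x, y) ≠ s(c, a)) c a := by
  intro hr
  have hb := (SimpleGraph.isAcyclic_iff_forall_adj_isBridge.1 hT) h
  rw [SimpleGraph.isBridge_iff] at hb
  apply hb
  rw [SimpleGraph.reachable_iff_reflTransGen]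
  refine Relation.ReflTransGen.mono ?_ _ _ hr
  intro x y hxy
  rw [SimpleGraph.deleteEdges_adj]
  exact ⟨hxy.1, fun hm => hxy.2 hm⟩

theorem k1_nb {U : Type} (T : SimpleGraph U) (hT : T.IsAcyclic) {c a b : U} (ha : T.Adj c a)
    (hb : T.Adj c b) (h : Relation.ReflTransGen (k1t T c) a b) : a = b := by
  by_contra hab
  refine k1_bridge T hT ha (Relation.ReflTransGen.head ⟨hb, ?_⟩ ?_)
  · intro he
    rw [Sym2.eq_iff] at he
    rcases he with he | he
    · exact hab he.2.symm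
    · exact ha.ne he.1
  · refine Relation.ReflTransGen.mono ?_ _ _ (k1t_symm T c h)
    intro x y hxy
    refine ⟨hxy.1, fun he => ?_⟩
    rw [Sym2.eq_iff] at he
    rcases he with he | he
    · exact hxy.2.1 he.1
    · exact hxy.2.2 he.2

theorem k1_ex_nb {U : Type} (T : SimpleGraph U) (hT : T.Connected) (c a : U) (ha : a ≠ c) :
    ∃ w, T.Adj c w ∧ Relation.ReflTransGen (k1t T c) w a := by
  have h : Relation.ReflTransGen T.Adj c a := by
    rw [← SimpleGraph.reachable_iff_reflTransGen]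
    exact hT.preconnected c a
  have key : ∀ x, Relation.ReflTransGen T.Adj c x →
      x = c ∨ ∃ w, T.Adj c w ∧ Relation.ReflTransGen (k1t T c) w x := by
    intro x hx
    induction hx with
    | refl => exact Or.inl rfl
    | @tail x y _ hxy ih =>
      by_cases hy : y = c
      · exact Or.inl hy
      · rcases ih with rfl | ⟨w, hw, hwx⟩
        · exact Or.inr ⟨y, hxy, Relation.ReflTransGen.refl⟩
        · by_cases hx : x = c
          · subst hx
            exact Or.inr ⟨y, hxy, Relation.ReflTransGen.refl⟩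
          · exact Or.inr ⟨w, hw, hwx.tail ⟨hxy, hx, hy⟩⟩
  rcases key a h with h | h
  · exact absurd h ha
  · exact h

variable {G : Type} [Group G]

/-! ## location data -/

structure K1Loc (D : Setup G) (L : Cx G) where
  loc : L.V → Set D.U
  l1 : ∀ p, (∃ u, loc p = {u}) ∨ ∃ u w, D.T.Adj u w ∧ loc p = {u, w}
  l2 : ∀ (g : G) p, loc (g • p) = g • loc p
  l3 : ∀ p q, L.adj p q → ∃ u, loc p ∩ loc q = {u}
  l4 : ∀ p q r, L.tri p q r → ∃ u, u ∈ loc p ∧ u ∈ loc q ∧ u ∈ loc r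

theorem k1_th (D : Setup G) (g : G) : D.θ g • D.u0 = D.u0 := by
  have h : D.θ g ∈ stabilizer G D.u0 := by
    rw [D.stab0]
    exact ⟨g, rfl⟩
  exact h

theorem k1_ht (D : Setup G) {g : G} (h : g • D.u0 = D.u0) : ∃ k, D.θ k = g := by
  have h' : g ∈ stabilizer G D.u0 := h
  rw [D.stab0] at h'
  exact h'

section

variable {D : Setup G} {L : Cx G} (A : K1Loc D L)

def k1r (p q : L.V) : Prop := L.adj p q ∧ ∃ u, u ≠ D.u0 ∧ u ∈ A.loc p ∧ u ∈ A.loc q

theorem k1r_symm {p q : L.V} (h : k1r A p q) : k1r A q p :=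
  ⟨L.symm _ _ h.1, h.2.choose, h.2.choose_spec.1, h.2.choose_spec.2.2, h.2.choose_spec.2.1⟩

theorem k1R_symm {p q : L.V} (h : Relation.ReflTransGen (k1r A) p q) :
    Relation.ReflTransGen (k1r A) q p := by
  induction h with
  | refl => exact Relation.ReflTransGen.refl
  | tail _ h ih => exact Relation.ReflTransGen.head (k1r_symm A h) ih

theorem k1r_smul (g : G) {p q : L.V} (h : k1r A p q) : k1r A (D.θ g • p) (D.θ g • q) := by
  obtain ⟨h1, u, h2, h3, h4⟩ := h
  refine ⟨L.smul_adj _ _ _ h1, D.θ g • u, ?_, ?_, ?_⟩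
  · intro he
    have := k1_th D g
    rw [← this] at he
    exact h2 (smul_left_cancel _ he)
  · rw [A.l2]
    exact Set.smul_mem_smul_set h3
  · rw [A.l2]
    exact Set.smul_mem_smul_set h4

theorem k1R_smul (g : G) {p q : L.V} (h : Relation.ReflTransGen (k1r A) p q) :
    Relation.ReflTransGen (k1r A) (D.θ g • p) (D.θ g • q) := by
  induction h with
  | refl => exact Relation.ReflTransGen.refl
  | tail _ h ih => exact ih.tail (k1r_smul A g h)

theorem k1_locconn (p : L.V) {a b : D.U} (ha : a ∈ A.loc p) (hb : b ∈ A.loc p) (ha0 : a ≠ D.u0)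
    (hb0 : b ≠ D.u0) : Relation.ReflTransGen (k1t D.T D.u0) a b := by
  rcases A.l1 p with ⟨u, hu⟩ | ⟨u, w, huw, hu⟩
  · rw [hu, Set.mem_singleton_iff] at ha hb
    rw [ha, hb]
  · rw [hu, Set.mem_insert_iff, Set.mem_singleton_iff] at ha hb
    rcases ha with rfl | rfl <;> rcases hb with rfl | rfl
    · exact Relation.ReflTransGen.refl
    · exact Relation.ReflTransGen.single ⟨huw, ha0, hb0⟩
    · exact Relation.ReflTransGen.single ⟨huw.symm, ha0, hb0⟩
    · exact Relation.ReflTransGen.refl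

theorem k1_cls1 {p q : L.V} (h : Relation.ReflTransGen (k1r A) p q) :
    p = q ∨ ((∃ a ∈ A.loc p, a ≠ D.u0) ∧ ∃ b ∈ A.loc q, b ≠ D.u0) := by
  induction h with
  | refl => exact Or.inl rfl
  | tail _ h ih =>
    obtain ⟨-, u, hu, h1, h2⟩ := h
    right
    rcases ih with rfl | ⟨ih, -⟩
    · exact ⟨⟨u, h1, hu⟩, u, h2, hu⟩
    · exact ⟨ih, u, h2, hu⟩

theorem k1_cls2 {p q : L.V} (h : Relation.ReflTransGen (k1r A) p q) :
    ∀ a ∈ A.loc p, a ≠ D.u0 → ∀ b ∈ A.loc q, b ≠ D.u0 →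
      Relation.ReflTransGen (k1t D.T D.u0) a b := by
  induction h with
  | refl => exact fun a ha ha0 b hb hb0 => k1_locconn A _ ha hb ha0 hb0
  | tail _ h ih =>
    intro a ha ha0 b hb hb0
    obtain ⟨-, u, hu, h1, h2⟩ := h
    exact (ih a ha ha0 u h1 hu).trans (k1_locconn A _ h2 hb hu hb0)

theorem k1_pair {p : L.V} {a : D.U} (h0 : D.u0 ∈ A.loc p) (ha : a ∈ A.loc p) (ha0 : a ≠ D.u0) :
    D.T.Adj D.u0 a := by
  rcases A.l1 p with ⟨u, hu⟩ | ⟨u, w, huw, hu⟩
  · rw [hu, Set.mem_singleton_iff] at h0 ha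
    exact absurd (ha.trans h0.symm) ha0
  · rw [hu, Set.mem_insert_iff, Set.mem_singleton_iff] at h0 ha
    rcases h0 with h0 | h0 <;> rcases ha with ha | ha
    · exact absurd (ha.trans h0.symm) ha0
    · rw [h0, ha]
      exact huw
    · rw [h0, ha]
      exact huw.symm
    · exact absurd (ha.trans h0.symm) ha0

theorem k1_edge {p q : L.V} (h : L.adj p q) (hp : D.u0 ∈ A.loc p) (hq : D.u0 ∈ A.loc q) :
    A.loc p ∩ A.loc q = {D.u0} ∧ ¬ Relation.ReflTransGen (k1r A) p q := by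
  obtain ⟨u, hu⟩ := A.l3 p q h
  have h0 : D.u0 ∈ A.loc p ∩ A.loc q := ⟨hp, hq⟩
  rw [hu, Set.mem_singleton_iff] at h0
  rw [← h0] at hu
  refine ⟨hu, fun hr => ?_⟩
  rcases k1_cls1 A hr with rfl | ⟨⟨a, ha, ha0⟩, b, hb, hb0⟩
  · exact L.irrefl _ h
  · have h1 := k1_cls2 A hr a ha ha0 b hb hb0
    have h2 := k1_nb D.T D.tree.2 (k1_pair A hp ha ha0) (k1_pair A hq hb hb0) h1
    subst h2
    have h3 : a ∈ A.loc p ∩ A.loc q := ⟨ha, hb⟩
    rw [hu, Set.mem_singleton_iff] at h3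
    exact ha0 h3

theorem k1_edge' {p q : L.V} (h : L.adj p q) (hn : ¬ Relation.ReflTransGen (k1r A) p q) :
    D.u0 ∈ A.loc p ∧ D.u0 ∈ A.loc q := by
  obtain ⟨u, hu⟩ := A.l3 p q h
  have h0 : u ∈ A.loc p ∩ A.loc q := by
    rw [hu]
    rfl
  by_cases hu0 : u = D.u0
  · rw [hu0] at h0
    exact h0
  · exact absurd (Relation.ReflTransGen.single ⟨h, u, hu0, h0.1, h0.2⟩) hn

/-! ## the quotient -/

def k1S : Setoid L.V where
  r := Relation.ReflTransGen (k1r A)
  iseqv := ⟨fun _ => Relation.ReflTransGen.refl, fun h => k1R_symm A h, fun h h' => h.trans h'⟩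

def k1V : Type := Quotient (k1S A)

def k1m (p : L.V) : k1V A := Quotient.mk (k1S A) p

theorem k1m_eq {p q : L.V} : k1m A p = k1m A q ↔ Relation.ReflTransGen (k1r A) p q :=
  ⟨fun h => Quotient.exact h, fun h => Quotient.sound (s := k1S A) h⟩

theorem k1m_surj (P : k1V A) : ∃ p, k1m A p = P := Quotient.exists_rep P

instance k1act : MulAction G (k1V A) where
  smul g := Quotient.map (fun p => D.θ g • p) (fun _ _ h => k1R_smul A g h)
  one_smul P := by
    obtain ⟨p, rfl⟩ := k1m_surj A P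
    show k1m A (D.θ 1 • p) = _
    rw [map_one, one_smul]
  mul_smul g h P := by
    obtain ⟨p, rfl⟩ := k1m_surj A P
    show k1m A (D.θ (g * h) • p) = k1m A (D.θ g • D.θ h • p)
    rw [map_mul, mul_smul]

theorem k1m_smul (g : G) (p : L.V) : k1m A (D.θ g • p) = g • k1m A p := rfl

def k1adj (P Q : k1V A) : Prop := P ≠ Q ∧ ∃ x y, L.adj x y ∧ k1m A x = P ∧ k1m A y = Q

def k1tri (P Q R : k1V A) : Prop := P ≠ Q ∧ Q ≠ R ∧ P ≠ R ∧
  ∃ x y z, L.tri x y z ∧ k1m A x = P ∧ k1m A y = Q ∧ k1m A z = R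

theorem k1conn (P Q : k1V A) : Relation.ReflTransGen (k1adj A) P Q := by
  obtain ⟨p, rfl⟩ := k1m_surj A P
  obtain ⟨q, rfl⟩ := k1m_surj A Q
  have h := L.conn p q
  induction h with
  | refl => exact Relation.ReflTransGen.refl
  | @tail x y _ h ih =>
    by_cases he : k1m A x = k1m A y
    · rw [← he]
      exact ih
    · exact ih.tail ⟨he, x, y, h, rfl, rfl⟩

theorem k1sc : SC (k1adj A) (k1tri A) := by
  intro H _ c h1 h2
  classical
  let cK : L.V → L.V → H := fun x y => if k1m A x = k1m A y then 1 else c (k1m A x) (k1m A y)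
  have hcK : ∀ x y, cK x y = if k1m A x = k1m A y then 1 else c (k1m A x) (k1m A y) :=
    fun _ _ => rfl
  have a1 : ∀ x y, L.adj x y → cK x y * cK y x = 1 := by
    intro x y hxy
    rw [hcK, hcK]
    by_cases he : k1m A x = k1m A y
    · rw [if_pos he, if_pos he.symm, one_mul]
    · rw [if_neg he, if_neg fun h => he h.symm]
      exact h1 _ _ ⟨he, x, y, hxy, rfl, rfl⟩
  have a2 : ∀ x y z, L.tri x y z → cK x y * cK y z * cK z x = 1 := by
    intro x y z ht
    have e1 := L.tri_adj _ _ _ ht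
    have e2 := L.tri_adj _ _ _ (L.tri_rot _ _ _ ht)
    have e3 := L.tri_adj _ _ _ (L.tri_rot _ _ _ (L.tri_rot _ _ _ ht))
    rw [hcK, hcK, hcK]
    by_cases hxy : k1m A x = k1m A y
    · by_cases hyz : k1m A y = k1m A z
      · rw [if_pos hxy, if_pos hyz, if_pos (hxy.trans hyz).symm, one_mul, one_mul]
      · rw [if_pos hxy, if_neg hyz, if_neg (fun h => hyz (hxy.symm.trans h.symm)), one_mul, hxy]
        exact h1 _ _ ⟨hyz, y, z, e2, rfl, rfl⟩
    · by_cases hyz : k1m A y = k1m A z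
      · rw [if_neg hxy, if_pos hyz, if_neg (fun h => hxy (h.symm.trans hyz.symm)), mul_one, ← hyz]
        exact h1 _ _ ⟨hxy, x, y, e1, rfl, rfl⟩
      · by_cases hzx : k1m A z = k1m A x
        · rw [if_neg hxy, if_neg hyz, if_pos hzx, mul_one, hzx]
          exact h1 _ _ ⟨hxy, x, y, e1, rfl, rfl⟩
        · rw [if_neg hxy, if_neg hyz, if_neg hzx]
          exact h2 _ _ _ ⟨hxy, hyz, fun h => hzx h.symm, x, y, z, ht, rfl, rfl, rfl⟩
  obtain ⟨f, hf⟩ := L.sc H cK a1 a2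
  have hcl : ∀ x y, Relation.ReflTransGen (k1r A) x y → f x = f y := by
    intro x y h
    induction h with
    | refl => rfl
    | @tail y z _ h ih =>
      have e := hf y z h.1
      rw [hcK, if_pos ((k1m_eq A).2 (Relation.ReflTransGen.single h))] at e
      rw [ih]
      exact inv_mul_eq_one.1 e.symm
  refine ⟨Quotient.lift f hcl, ?_⟩
  rintro P Q ⟨hne, x, y, hxy, rfl, rfl⟩
  have e := hf x y hxy
  rw [hcK, if_neg hne] at e
  exact e

theorem k1_two : ∃ x y, L.adj x y ∧ D.u0 ∈ A.loc x ∧ D.u0 ∈ A.loc y := by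
  obtain ⟨p⟩ := L.ne
  obtain ⟨q, hpq⟩ := L.nbr p
  obtain ⟨u, hu⟩ := A.l3 p q hpq
  have h0 : u ∈ A.loc p ∩ A.loc q := by
    rw [hu]
    rfl
  obtain ⟨g, hg⟩ := D.vtrans u
  have e : D.u0 = g⁻¹ • u := by
    rw [← hg, inv_smul_smul]
  refine ⟨g⁻¹ • p, g⁻¹ • q, L.smul_adj _ _ _ hpq, ?_, ?_⟩
  · rw [A.l2, e]
    exact Set.smul_mem_smul_set h0.1
  · rw [A.l2, e]
    exact Set.smul_mem_smul_set h0.2

theorem k1_nbr (P : k1V A) : ∃ Q, k1adj A P Q := by
  obtain ⟨x, y, hxy, hx, hy⟩ := k1_two A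
  have hne : k1m A x ≠ k1m A y := fun h => (k1_edge A hxy hx hy).2 ((k1m_eq A).1 h)
  obtain ⟨P', hP'⟩ : ∃ P', P ≠ P' := by
    by_cases h : P = k1m A x
    · exact ⟨k1m A y, by rw [h]; exact hne⟩
    · exact ⟨k1m A x, h⟩
  rcases Relation.ReflTransGen.cases_head (k1conn A P P') with h | ⟨Q, h, -⟩
  · exact absurd h hP'
  · exact ⟨Q, h⟩

theorem k1_FCinj (D : Setup G) (S H : Subgroup G) (hH : FC H) (h : ∀ g ∈ S, D.θ g ∈ H) : FC S := by
  let f : S →* H := (D.θ.comp S.subtype).codRestrict H fun g => h g.1 g.2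
  have hf : Function.Injective f := by
    intro a b hab
    have := congrArg Subtype.val hab
    exact Subtype.ext (D.θinj this)
  rcases hH with hH | hH
  · exact Or.inl (Finite.of_injective f hf)
  · exact Or.inr (isCyclic_of_injective f hf)

theorem k1_stab (hI : ST_INF) (P : k1V A) : FC (stabilizer G P) := by
  obtain ⟨p, rfl⟩ := k1m_surj A P
  by_cases hp : ∃ a ∈ A.loc p, a ≠ D.u0
  · obtain ⟨a, ha, ha0⟩ := hp
    obtain ⟨w, hw, hwa⟩ := k1_ex_nb D.T D.tree.1 D.u0 a ha0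
    obtain ⟨z, -, hz⟩ := (hI G D).2.1 D.u0 w hw
    refine k1_FCinj D _ (Subgroup.zpowers z) (Or.inr inferInstance) fun g hg => ?_
    rw [← hz]
    refine ⟨k1_th D g, ?_⟩
    have hg' : k1m A (D.θ g • p) = k1m A p := hg
    have hr := (k1m_eq A).1 hg'
    have e0 : D.θ g • a ≠ D.u0 := by
      intro he
      have := k1_th D g
      rw [← this] at he
      exact ha0 (smul_left_cancel _ he)
    have h1 : D.θ g • a ∈ A.loc (D.θ g • p) := by
      rw [A.l2]
      exact Set.smul_mem_smul_set ha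
    have h2 := k1_cls2 A hr _ h1 e0 a ha ha0
    have h3 : Relation.ReflTransGen (k1t D.T D.u0) (D.θ g • w) (D.θ g • a) := by
      refine Relation.ReflTransGen.lift (fun x => D.θ g • x) ?_ _ _ hwa
      intro x y hxy
      refine ⟨Tadj_smul _ hxy.1, fun he => ?_, fun he => ?_⟩
      · have := k1_th D g
        rw [← this] at he
        exact hxy.2.1 (smul_left_cancel _ he)
      · have := k1_th D g
        rw [← this] at he
        exact hxy.2.2 (smul_left_cancel _ he)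
    have h4 : D.T.Adj D.u0 (D.θ g • w) := by
      have := Tadj_smul (D.θ g) hw
      rwa [k1_th] at this
    exact k1_nb D.T D.tree.2 h4 hw ((h3.trans h2).trans (k1t_symm _ _ hwa))
  · refine k1_FCinj D _ (stabilizer G p) (L.stab p) fun g hg => ?_
    have hg' : k1m A (D.θ g • p) = k1m A p := hg
    rcases k1_cls1 A ((k1m_eq A).1 hg') with h | ⟨-, h⟩
    · exact h
    · exact absurd h hp

/-! ## orbits -/

theorem k1_dart {x y : L.V} {P Q : k1V A} (h : L.adj x y) (hne : P ≠ Q) (hx : k1m A x = P)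
    (hy : k1m A y = Q) : A.loc x ∩ A.loc y = {D.u0} := by
  have hn : ¬ Relation.ReflTransGen (k1r A) x y := by
    intro hr
    exact hne (by rw [← hx, ← hy, (k1m_eq A).2 hr])
  obtain ⟨h1, h2⟩ := k1_edge' A h hn
  exact (k1_edge A h h1 h2).1

theorem k1_fix {x y : L.V} {g : G} (h : A.loc x ∩ A.loc y = {D.u0})
    (h' : D.u0 ∈ A.loc (g • x) ∧ D.u0 ∈ A.loc (g • y)) : ∃ k, D.θ k = g := by
  apply k1_ht
  have h1 : D.u0 ∈ g • (A.loc x ∩ A.loc y) := by
    rw [Set.smul_set_inter, ← A.l2, ← A.l2]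
    exact h'
  rw [h, Set.smul_set_singleton, Set.mem_singleton_iff] at h1
  exact h1.symm

theorem k1_mem {x y : L.V} (h : A.loc x ∩ A.loc y = {D.u0}) : D.u0 ∈ A.loc x ∧ D.u0 ∈ A.loc y := by
  have : D.u0 ∈ A.loc x ∩ A.loc y := by
    rw [h]
    rfl
  exact this

theorem k1_darts (F : k1V A × k1V A → Prop) (F' : L.V × L.V → Prop)
    (hF : ∀ x y, L.adj x y → k1m A x ≠ k1m A y → F (k1m A x, k1m A y) → F' (x, y))
    (hf : FinOrb G {p : L.V × L.V | L.adj p.1 p.2 ∧ F' p}) :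
    FinOrb G {p : k1V A × k1V A | k1adj A p.1 p.2 ∧ F p} ∧
    oc G {p : k1V A × k1V A | k1adj A p.1 p.2 ∧ F p} ≤ oc G {p : L.V × L.V | L.adj p.1 p.2 ∧ F' p} := by
  refine k1_oc _ _ (fun P p => P.1 ≠ P.2 ∧ P = (k1m A p.1, k1m A p.2)) ?_ ?_ hf
  · rintro ⟨P, Q⟩ ⟨⟨hne, x, y, hxy, rfl, rfl⟩, hPF⟩
    exact ⟨(x, y), ⟨hxy, hF x y hxy hne hPF⟩, hne, rfl⟩
  · rintro ⟨P, Q⟩ - ⟨P', Q'⟩ - ⟨x, y⟩ ⟨hxy, -⟩ ⟨x', y'⟩ ⟨hxy', -⟩ ⟨hne, he⟩ ⟨hne', he'⟩ g hg
    simp only [Prod.mk.injEq] at he he'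
    have hg' : x' = g • x ∧ y' = g • y := by
      have := Prod.ext_iff.1 hg
      exact this
    have d1 := k1_dart A hxy hne he.1.symm he.2.symm
    have d2 := k1_mem A (k1_dart A hxy' hne' he'.1.symm he'.2.symm)
    rw [hg'.1, hg'.2] at d2
    obtain ⟨k, rfl⟩ := k1_fix A d1 d2
    refine ⟨k, ?_⟩
    show (P', Q') = (k • P, k • Q)
    rw [he.1, he.2, he'.1, he'.2, hg'.1, hg'.2, k1m_smul, k1m_smul]

theorem k1_tri0 {x y z : L.V} (h : L.tri x y z) (hxy : k1m A x ≠ k1m A y) :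
    D.u0 ∈ A.loc x ∧ D.u0 ∈ A.loc y ∧ D.u0 ∈ A.loc z := by
  obtain ⟨u, h1, h2, h3⟩ := A.l4 x y z h
  by_cases hu : u = D.u0
  · rw [hu] at h1 h2 h3
    exact ⟨h1, h2, h3⟩
  · exact absurd ((k1m_eq A).2 (Relation.ReflTransGen.single ⟨L.tri_adj _ _ _ h, u, hu, h1, h2⟩)) hxy

theorem k1_tris : FinOrb G {s : Set (k1V A) | ∃ x y z, k1tri A x y z ∧ s = {x, y, z}} ∧
    oc G {s : Set (k1V A) | ∃ x y z, k1tri A x y z ∧ s = {x, y, z}} ≤ rr L := by
  refine k1_oc _ _ (fun S s => S = k1m A '' s ∧ ∃ x y z, L.tri x y z ∧ k1m A x ≠ k1m A y ∧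
    s = {x, y, z}) ?_ ?_ L.finT
  · rintro S ⟨P, Q, R, ⟨h1, h2, h3, x, y, z, ht, rfl, rfl, rfl⟩, rfl⟩
    refine ⟨{x, y, z}, ⟨x, y, z, ht, rfl⟩, ?_, x, y, z, ht, h1, rfl⟩
    simp only [Set.image_insert_eq, Set.image_singleton]
  · rintro S - S' - s - s' - ⟨rfl, x, y, z, ht, hne, rfl⟩ ⟨rfl, x', y', z', ht', hne', rfl⟩ g hg
    obtain ⟨a1, a2, a3⟩ := k1_tri0 A ht hne
    obtain ⟨b1, b2, b3⟩ := k1_tri0 A ht' hne'
    have hall : ∀ v ∈ ({x', y', z'} : Set L.V), D.u0 ∈ A.loc v := by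
      intro v hv
      simp only [Set.mem_insert_iff, Set.mem_singleton_iff] at hv
      rcases hv with rfl | rfl | rfl
      · exact b1
      · exact b2
      · exact b3
    rw [hg] at hall
    have c1 : D.u0 ∈ A.loc (g • x) := hall _ (Set.smul_mem_smul_set (by simp))
    have c2 : D.u0 ∈ A.loc (g • y) := hall _ (Set.smul_mem_smul_set (by simp))
    have d1 := (k1_edge A (L.tri_adj _ _ _ ht) a1 a2).1
    obtain ⟨k, rfl⟩ := k1_fix A d1 ⟨c1, c2⟩
    refine ⟨k, ?_⟩
    rw [hg]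
    ext P
    simp only [Set.mem_image, Set.mem_smul_set]
    constructor
    · rintro ⟨_, ⟨v, hv, rfl⟩, rfl⟩
      exact ⟨k1m A v, ⟨v, hv, rfl⟩, rfl⟩
    · rintro ⟨_, ⟨v, hv, rfl⟩, rfl⟩
      exact ⟨D.θ k • v, ⟨v, hv, rfl⟩, rfl⟩

/-! ## the complex -/

/-- the quotient complex -/
def k1K (hI : ST_INF) : Cx G where
  V := k1V A
  act := k1act A
  adj := k1adj A
  tri := k1tri A
  ne := ⟨k1m A L.ne.some⟩
  symm := by
    rintro P Q ⟨hne, x, y, hxy, hx, hy⟩
    exact ⟨hne.symm, y, x, L.symm _ _ hxy, hy, hx⟩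
  irrefl := fun P h => h.1 rfl
  nbr := k1_nbr A
  tri_adj := by
    rintro P Q R ⟨h1, -, -, x, y, z, ht, hx, hy, -⟩
    exact ⟨h1, x, y, L.tri_adj _ _ _ ht, hx, hy⟩
  tri_rot := by
    rintro P Q R ⟨h1, h2, h3, x, y, z, ht, hx, hy, hz⟩
    exact ⟨h2, h3.symm, h1.symm, y, z, x, L.tri_rot _ _ _ ht, hy, hz, hx⟩
  tri_swap := by
    rintro P Q R ⟨h1, h2, h3, x, y, z, ht, hx, hy, hz⟩
    exact ⟨h1.symm, h3, h2, y, x, z, L.tri_swap _ _ _ ht, hy, hx, hz⟩
  smul_adj := by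
    rintro g P Q ⟨hne, x, y, hxy, rfl, rfl⟩
    exact ⟨fun h => hne (smul_left_cancel g h), _, _, L.smul_adj (D.θ g) _ _ hxy, rfl, rfl⟩
  smul_tri := by
    rintro g P Q R ⟨h1, h2, h3, x, y, z, ht, rfl, rfl, rfl⟩
    exact ⟨fun h => h1 (smul_left_cancel g h), fun h => h2 (smul_left_cancel g h),
      fun h => h3 (smul_left_cancel g h), _, _, _, L.smul_tri (D.θ g) _ _ _ ht, rfl, rfl, rfl⟩
  conn := k1conn A
  sc := k1sc A
  finE := by
    have h := (k1_darts A (fun _ => True) (fun _ => True) (fun _ _ _ _ _ => trivial)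
      (k1_FinOrb_mono (fun p hp => hp.1) L.finE)).1
    refine k1_FinOrb_mono (fun p hp => ?_) h
    show _ ∧ _
    exact ⟨hp, trivial⟩
  finT := (k1_tris A).1
  stab := k1_stab A hI

theorem k1_rr (hI : ST_INF) : rr (k1K A hI) ≤ rr L := (k1_tris A).2

theorem k1_dd (hI : ST_INF) : dd (k1K A hI) ≤ dd L := by
  refine (k1_darts A (fun p => Fr (k1K A hI) p.1 p.2) (fun p => Fr L p.1 p.2) ?_ ?_).2
  · intro x y hxy hne hF g hgx hgy
    have d1 := k1_dart A hxy hne rfl rfl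
    have d2 := k1_mem A d1
    have d3 : D.u0 ∈ A.loc (g • x) ∧ D.u0 ∈ A.loc (g • y) := by
      rw [hgx, hgy]
      exact d2
    obtain ⟨k, rfl⟩ := k1_fix A d1 d3
    have hk : k = 1 := by
      refine hF k ?_ ?_
      · show k • k1m A x = k1m A x
        rw [← k1m_smul, hgx]
      · show k • k1m A y = k1m A y
        rw [← k1m_smul, hgy]
    rw [hk, map_one]
  · exact k1_FinOrb_mono (fun p hp => hp.1) L.finE

theorem k1_finV (K : Cx G) : FinOrb G (Set.univ : Set K.V) := by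
  refine (k1_oc (G := G) (Set.univ : Set K.V) {p : K.V × K.V | K.adj p.1 p.2} (fun a p => a = p.1) ?_ ?_
    K.finE).1
  · intro a _
    obtain ⟨b, hb⟩ := K.nbr a
    exact ⟨(a, b), hb, rfl⟩
  · rintro a - a' - ⟨b, c⟩ - ⟨b', c'⟩ - rfl rfl g hg
    refine ⟨g, ?_⟩
    have := (Prod.ext_iff.1 hg).1
    exact this

theorem k1_finfree {z : G} (hz : ¬ IsOfFinOrder z) (S : Subgroup G) (hS : Finite S)
    (h : S ≤ Subgroup.zpowers z) : S = ⊥ := by
  rw [eq_bot_iff]
  intro g hg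
  obtain ⟨n, hn⟩ := h hg
  have hfin : IsOfFinOrder g := by
    have h1 : IsOfFinOrder (⟨g, hg⟩ : S) := isOfFinOrder_of_finite _
    exact S.subtype.isOfFinOrder h1
  have hn0 : n = 0 := by
    by_contra hne
    apply hz
    have hn' : z ^ n = g := hn
    rw [← hn', isOfFinOrder_iff_zpow_eq_one] at hfin
    obtain ⟨m, hm, he⟩ := hfin
    rw [isOfFinOrder_iff_zpow_eq_one]
    exact ⟨n * m, mul_ne_zero hne hm, by rw [zpow_mul, he]⟩
  have hn' : z ^ n = g := hn
  rw [hn0, zpow_zero] at hn'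
  rw [← hn']
  exact Subgroup.one_mem _

theorem k1_stab_pair (hI : ST_INF) {p : L.V} {u w : D.U} (huw : D.T.Adj u w)
    (h : A.loc p = {u, w}) : stabilizer G p ≤ stabilizer G u ⊓ stabilizer G w := by
  intro g hg
  have h1 : A.loc p = g • A.loc p := by
    rw [← A.l2, mem_stabilizer_iff.1 hg]
  rw [h, Set.smul_set_insert, Set.smul_set_singleton] at h1
  have h2 : g • u ∈ ({u, w} : Set D.U) := by
    rw [h1]
    exact Set.mem_insert _ _
  have h3 : g • w ∈ ({u, w} : Set D.U) := by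
    rw [h1]
    exact Set.mem_insert_of_mem _ rfl
  simp only [Set.mem_insert_iff, Set.mem_singleton_iff] at h2 h3
  rcases h2 with h2 | h2
  · refine ⟨h2, ?_⟩
    rcases h3 with h3 | h3
    · exact absurd (smul_left_cancel g (h2.trans h3.symm)) huw.ne
    · exact h3
  · rcases h3 with h3 | h3
    · exact absurd ⟨h2, h3⟩ ((hI G D).2.2.2 g u w huw)
    · exact absurd (smul_left_cancel g (h2.trans h3.symm)) huw.ne

theorem k1_nn (hI : ST_INF) : nn L ≤ nn (k1K A hI) := by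
  refine (k1_oc (G := G) _ _ (fun (x : L.V) (P : (k1K A hI).V) =>
    ∃ g : G, A.loc (g • x) = {D.u0} ∧ P = k1m A (g • x)) ?_ ?_
    (k1_FinOrb_mono (Set.subset_univ _) (k1_finV (k1K A hI)))).2
  · rintro x ⟨⟨y, z, ht⟩, hfin, hne⟩
    rcases A.l1 x with ⟨u, hu⟩ | ⟨u, w, huw, hu⟩
    · obtain ⟨g, hg⟩ := D.vtrans u
      have e : A.loc (g⁻¹ • x) = {D.u0} := by
        rw [A.l2, hu, Set.smul_set_singleton, ← hg, inv_smul_smul]
      refine ⟨k1m A (g⁻¹ • x), ⟨?_, ?_, ?_⟩, g⁻¹, e, rfl⟩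
      · have ht' := L.smul_tri g⁻¹ _ _ _ ht
        obtain ⟨c, h1, h2, h3⟩ := A.l4 _ _ _ ht'
        rw [e, Set.mem_singleton_iff] at h1
        subst h1
        have h0 : D.u0 ∈ A.loc (g⁻¹ • x) := by
          rw [e]
          rfl
        have a1 := L.tri_adj _ _ _ ht'
        have a2 := L.tri_adj _ _ _ (L.tri_rot _ _ _ ht')
        have a3 := L.symm _ _ (L.tri_adj _ _ _ (L.tri_rot _ _ _ (L.tri_rot _ _ _ ht')))
        refine ⟨k1m A (g⁻¹ • y), k1m A (g⁻¹ • z), ?_, ?_, ?_, _, _, _, ht', rfl, rfl, rfl⟩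
        · exact fun h => (k1_edge A a1 h0 h2).2 ((k1m_eq A).1 h)
        · exact fun h => (k1_edge A a2 h2 h3).2 ((k1m_eq A).1 h)
        · exact fun h => (k1_edge A a3 h0 h3).2 ((k1m_eq A).1 h)
      · have hfin' : Finite (stabilizer G (g⁻¹ • x)) := by
          rw [stabilizer_smul_eq_stabilizer_map_conj]
          exact Finite.of_surjective _ (MonoidHom.subgroupMap_surjective _ _)
        have : FC (stabilizer G (k1m A (g⁻¹ • x))) ∧
          ∀ k ∈ stabilizer G (k1m A (g⁻¹ • x)), D.θ k ∈ stabilizer G (g⁻¹ • x) := by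
          refine ⟨k1_stab A hI _, fun k hk => ?_⟩
          have hk' : k1m A (D.θ k • g⁻¹ • x) = k1m A (g⁻¹ • x) := hk
          rcases k1_cls1 A ((k1m_eq A).1 hk') with h | ⟨-, b, hb, hb0⟩
          · exact h
          · rw [e] at hb
            exact absurd hb hb0
        let f : stabilizer G (k1m A (g⁻¹ • x)) → stabilizer G (g⁻¹ • x) :=
          fun k => ⟨D.θ k.1, this.2 k.1 k.2⟩
        have hf : Function.Injective f := by
          intro a b hab
          exact Subtype.ext (D.θinj (congrArg Subtype.val hab))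
        exact Finite.of_injective f hf
      · intro hbot
        apply hne
        rw [eq_bot_iff]
        intro k hk
        have hk1 : k • x = x := hk
        have hk2 : (g⁻¹ * k * g) • (g⁻¹ • x) = g⁻¹ • x := by
          rw [mul_smul, smul_inv_smul, mul_smul, hk1]
        have hk3 : (g⁻¹ * k * g) • D.u0 = D.u0 := by
          have h5 : A.loc ((g⁻¹ * k * g) • (g⁻¹ • x)) = (g⁻¹ * k * g) • A.loc (g⁻¹ • x) := A.l2 _ _
          rw [hk2, e, Set.smul_set_singleton, Set.singleton_eq_singleton_iff] at h5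
          exact h5.symm
        obtain ⟨m, hm⟩ := k1_ht D hk3
        have hm' : m ∈ stabilizer G (k1m A (g⁻¹ • x)) := by
          show m • k1m A (g⁻¹ • x) = _
          rw [← k1m_smul, hm, hk2]
        have hm1 : m = 1 := by
          have h6 : m ∈ (⊥ : Subgroup G) := by
            rw [← hbot]
            exact hm'
          exact h6
        rw [hm1, map_one] at hm
        have h7 : k = 1 := by
          have h8 : g * (g⁻¹ * k * g) * g⁻¹ = k := by group
          rw [← h8, ← hm]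
          group
        rw [h7]
        exact Subgroup.one_mem _
    · obtain ⟨z', hz', hz''⟩ := (hI G D).2.1 u w huw
      exact absurd (k1_finfree hz' _ hfin (by
        rw [← hz'']
        exact k1_stab_pair A hI huw hu)) hne
  · rintro x - x' - P - P' - ⟨g, hg, rfl⟩ ⟨g', hg', rfl⟩ k hk
    have hk' : k1m A (g' • x') = k1m A (D.θ k • g • x) := hk
    rcases k1_cls1 A ((k1m_eq A).1 hk') with h | ⟨⟨a, ha, ha0⟩, -⟩
    · refine ⟨g'⁻¹ * D.θ k * g, ?_⟩
      rw [mul_smul, mul_smul, ← h, inv_smul_smul]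
    · rw [hg'] at ha
      exact absurd ha ha0

/-! ## tracks over every edge -/

include A in
theorem k1_tracks (hI : ST_INF) (u w : D.U) (huw : D.T.Adj u w) :
    ∃ p : L.V, stabilizer G p ≤ stabilizer G u ⊓ stabilizer G w := by
  by_contra hno
  have hno' : ∀ p : L.V, A.loc p ≠ {u, w} := fun p hp => hno ⟨p, k1_stab_pair A hI huw hp⟩
  let B : Set D.U := {x | Relation.ReflTransGen (fun x y => D.T.Adj x y ∧ s(x, y) ≠ s(u, w)) u x}
  have hu : u ∈ B := Relation.ReflTransGen.refl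
  have hw : w ∉ B := k1_bridge D.T D.tree.2 huw
  have hst : ∀ a b, D.T.Adj a b → s(a, b) ≠ s(u, w) → a ∈ B → b ∈ B := by
    intro a b hab hne ha
    exact Relation.ReflTransGen.tail ha ⟨hab, hne⟩
  have hloc : ∀ p, ∀ a ∈ A.loc p, ∀ b ∈ A.loc p, a ∈ B → b ∈ B := by
    intro p a ha b hb haB
    rcases A.l1 p with ⟨c, hc⟩ | ⟨c, c', hcc, hc⟩
    · rw [hc, Set.mem_singleton_iff] at ha hb
      rw [hb, ← ha]
      exact haB
    · have hne : s(c, c') ≠ s(u, w) := by
        intro he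
        rw [Sym2.eq_iff] at he
        apply hno' p
        rw [hc]
        rcases he with ⟨rfl, rfl⟩ | ⟨rfl, rfl⟩
        · rfl
        · exact Set.pair_comm _ _
      rw [hc, Set.mem_insert_iff, Set.mem_singleton_iff] at ha hb
      rcases ha with rfl | rfl <;> rcases hb with rfl | rfl
      · exact haB
      · exact hst _ _ hcc hne haB
      · exact hst _ _ hcc.symm (by rwa [Sym2.eq_swap]) haB
      · exact haB
  have hcon : ∀ p q, (∀ a ∈ A.loc p, a ∈ B) → ∀ a ∈ A.loc q, a ∈ B := by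
    intro p q hp
    have h := L.conn p q
    induction h with
    | refl => exact hp
    | @tail x y _ h ih =>
      obtain ⟨c, hc⟩ := A.l3 x y h
      have h0 : c ∈ A.loc x ∩ A.loc y := by
        rw [hc]
        rfl
      exact fun a ha => hloc y c h0.2 a ha (ih c h0.1)
  have hex : ∀ c : D.U, ∃ p, c ∈ A.loc p := by
    intro c
    obtain ⟨x, -, -, hx, -⟩ := k1_two A
    obtain ⟨g, hg⟩ := D.vtrans c
    refine ⟨g • x, ?_⟩
    rw [A.l2, ← hg]
    exact Set.smul_mem_smul_set hx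
  obtain ⟨p, hp⟩ := hex u
  obtain ⟨q, hq⟩ := hex w
  exact hw (hcon p q (fun a ha => hloc p u hp a ha hu) w hq)

end

end Pool.Agent.Helper93.HZ
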